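import Pool.Agent.H92.BBC.Defs

/-!
# Mobile obstructions to a Bloch-Beilinson filtration: definitions
-/

open CategoryTheory AlgebraicGeometry

universe u v w

namespace Pool.Agent.H92.BBM

open Pool.Agent.H914 Pool.Agent.H914.VarClass Pool.Agent.H914.VarClass.Obj Pool.Agent.W492.BB
  Pool.Agent.TH133 Pool.Agent.Y148.BB Pool.Agent.Q72.DP Pool.Agent.Q72.BBF Pool.Agent.H92.BBC

variable {k : Type u} [Field k] {𝒱 : VarClass k}

variable {C : TheoryData.{u, v, 0} 𝒱 ℚ} {K : Type w} [Field K] (H : WeilTheoryData.{u, v, w} C K)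

/-- The class `z` on `X` is mobile: there are curves `T_1, T_2, …` and zero-cycles `t_i` of degree zero
on `T_i` with `t_i × t_i = 0` such that all the products `z × t_1 × ⋯ × t_r` are different from zero.
(This is the largest property `P` of classes such that, if `z` has the property `P`, then `z ≠ 0` and
`z × t` has the property `P` for some such zero-cycle `t` on a curve.) For `k = ℂ` every class `z ≠ 0` is
mobile, by a theorem of C. Schoen on products with zero-cycles on elliptic curves; over the algebraic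
closure of `ℚ` the homologically trivial classes are expected not to be mobile. -/
def Mobile {X : 𝒱.Obj} (z : C.A X) : Prop :=
  ∃ P : ∀ Y : 𝒱.Obj, C.A Y → Prop, P X z ∧ ∀ (Y : 𝒱.Obj) (y : C.A Y), P Y y →
    y ≠ 0 ∧ ∃ (T : 𝒱.Obj) (t : C.A T), T.dim = 1 ∧ IsNull H t ∧ C.ext t t = 0 ∧
      P (Y.prod T) (C.ext y t)

/-- The product `(((T × T_1) × T_2) × ⋯) × T_r` of the varieties `T` and `T_r, …, T_1` (a list). -/
noncomputable def prodOf : 𝒱.Obj → List 𝒱.Obj → 𝒱.Obj
  | T, [] => T
  | T, T' :: Ts => (prodOf T Ts).prod T'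

/-- `w` is a product `t × t_1 × ⋯ × t_r` of zero-cycles of degree zero on the factors of `prodOf`. -/
def IsNullProduct (T : 𝒱.Obj) : (Ts : List 𝒱.Obj) → C.A (prodOf T Ts) → Prop
  | [], w => IsNull H w
  | T' :: Ts, w => ∃ (w' : C.A (prodOf T Ts)) (t : C.A T'), IsNullProduct T Ts w' ∧ IsNull H t ∧
      w = C.ext w' t

/-- A family `(t_1, …, t_n) ↦ Γ_* (t_1 × ⋯ × t_n)`, `Γ ∈ CH^m(T_1 × ⋯ × T_n × V)`, with `t_i` the
zero-cycles of degree zero on the curve `T_i`, all of whose values are obstructions of level `s`, has no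
mobile value. -/
def NoFamily (N : Fam C) (n m s : ℕ) (V : 𝒱.Obj) : Prop :=
  ∀ (T : 𝒱.Obj) (Ts : List 𝒱.Obj) (Γ : C.A ((prodOf T Ts).prod V)), Ts.length + 1 = n →
    T.dim = 1 → (∀ T' ∈ Ts, T'.dim = 1) → C.Deg m Γ →
    (∀ w, IsNullProduct H T Ts w → Obstruction H N m s (C.act Γ w)) →
    ∀ w, IsNullProduct H T Ts w → ¬ Mobile H (C.act Γ w)

/-- No class in `S^(j+1) CH^j(X)` is mobile, for all `X` and `j`. (If a Bloch-Beilinson filtration
exists, then these groups are zero.) -/
def NoMobileClass (N : Fam C) : Prop :=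
  ∀ (X : 𝒱.Obj) (j : ℕ) (z : C.A X), In (step H N (j + 1)) j z → ¬ Mobile H z

end Pool.Agent.H92.BBM
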