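import Pool.Agent.H92.BBM.Defs
import Pool.Agent.H92.BBC.Main

/-!
# Mobile obstructions to a Bloch-Beilinson filtration
-/

open CategoryTheory AlgebraicGeometry

universe u v w

namespace Pool.Agent.H92.BBM

open Pool.Agent.H914 Pool.Agent.H914.VarClass Pool.Agent.H914.VarClass.Obj Pool.Agent.W492.BB
  Pool.Agent.W550.Corr Pool.Agent.TH133 Pool.Agent.TH829.Prime Pool.Agent.Y148.BB
  Pool.Agent.Q69.BB Pool.Agent.Q72.DP Pool.Agent.Q72.BBF Pool.Agent.H92.BBC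

set_option linter.unusedSectionVars false

variable {k : Type u} [Field k] {𝒱 : VarClass k}

section chow

variable {C : TheoryData.{u, v, 0} 𝒱 ℚ} [hC : IsChowProj C] {X Y Z W T V : 𝒱.Obj}

include hC

/-- There is a class on `V` whose push-forward along `f` is the class of the target. -/
def Dom (C : TheoryData.{u, v, 0} 𝒱 ℚ) {V X : 𝒱.Obj} (f : V ⟶ X) : Prop :=
  ∃ c : C.A V, C.push f c = 1

lemma Dom.injective {f : V ⟶ X} (hf : Dom C f) : Function.Injective (C.pull f) := by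
  obtain ⟨c, hc⟩ := hf
  intro y y' h
  have h1 : ∀ z : C.A X, C.push f (C.pull f z * c) = z := by
    intro z
    rw [C.proj_left, hc, mul_one]
  rw [← h1 y, ← h1 y', h]

lemma Dom.comp {g : W ⟶ V} {f : V ⟶ X} (hg : Dom C g) (hf : Dom C f) : Dom C (g ≫ f) := by
  obtain ⟨c, hc⟩ := hg
  obtain ⟨d, hd⟩ := hf
  refine ⟨C.pull g d * c, ?_⟩
  rw [C.push_comp, C.proj_left, hc, mul_one, hd]

lemma Dom.prodMap {f : V ⟶ X} (hf : Dom C f) (T : 𝒱.Obj) : Dom C (prodMap f (𝟙 T)) := by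
  obtain ⟨c, hc⟩ := hf
  refine ⟨C.ext c 1, ?_⟩
  rw [push_ext C, hc, C.push_id]
  simp only [TheoryData.ext, map_one, mul_one]

lemma Dom.fst (X T : 𝒱.Obj) : Dom C (Obj.fst X T) := by
  obtain ⟨a, -, ha, -⟩ := exists_deg_one C T
  exact ⟨C.pull (snd X T) a, ha X⟩

lemma Dom.id (X : 𝒱.Obj) : Dom C (𝟙 X) := ⟨1, C.push_id _⟩

lemma Dom.of_covering {π : V ⟶ X} {q : ℚ} (hq : q ≠ 0) (hπ : C.down π 1 = q • (1 : C.A X)) :
    Dom C π := by
  refine ⟨q⁻¹ • 1, ?_⟩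
  have h4 : C.push π 1 = q • (1 : C.A X) := hπ
  rw [map_smul, h4, smul_smul, inv_mul_cancel₀ hq, one_smul]

/-- Every variety of dimension at most `2 m` is dominated by varieties of dimension `2 m` in the
class `Cov`. -/
lemma exists_cover' (hT : T.dim = 1) {Cov : 𝒱.Obj → Prop} (hCov : HasCoverings C Cov)
    (X : 𝒱.Obj) {m : ℕ} (h : X.dim ≤ 2 * m) :
    ∃ (V : 𝒱.Obj) (f : V ⟶ X), Cov V ∧ V.dim = 2 * m ∧ Dom C f := by
  have h1 : ∀ r : ℕ, ∃ (P : 𝒱.Obj) (f : P ⟶ X), P.dim = X.dim + r ∧ Dom C f := by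
    intro r
    induction r with
    | zero => exact ⟨X, 𝟙 X, rfl, Dom.id X⟩
    | succ r ih =>
      obtain ⟨P, f, hd, hf⟩ := ih
      exact ⟨P.prod T, Obj.fst P T ≫ f, by rw [dim_prod, hd, hT]; ring, (Dom.fst P T).comp hf⟩
  obtain ⟨P, f, hd, hf⟩ := h1 (2 * m - X.dim)
  obtain ⟨V, π, q, hV, hVd, hq, hπ⟩ := hCov P
  exact ⟨V, π ≫ f, hV, by rw [hVd, hd]; omega, (Dom.of_covering hq hπ).comp hf⟩

end chow

section weil

variable {C : TheoryData.{u, v, 0} 𝒱 ℚ} [hC : IsChowProj C] {K : Type w} [Field K]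
  {H : WeilTheoryData.{u, v, w} C K} [hH : IsWeilProj H]
  {N : ∀ X : 𝒱.Obj, ℕ → Submodule ℚ (C.A X)} {X Y Z W T V : 𝒱.Obj}

omit hC hH in
lemma Mobile.ne_zero {z : C.A X} (h : Mobile H z) : z ≠ 0 := by
  obtain ⟨P, h1, h2⟩ := h
  exact (h2 X z h1).1

omit hC hH in
lemma Mobile.next {z : C.A X} (h : Mobile H z) : ∃ (T : 𝒱.Obj) (t : C.A T), T.dim = 1 ∧
    IsNull H t ∧ C.ext t t = 0 ∧ Mobile H (C.ext z t) := by
  obtain ⟨P, h1, h2⟩ := h
  obtain ⟨-, T, t, hT, ht, htt, h3⟩ := h2 X z h1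
  exact ⟨T, t, hT, ht, htt, P, h3, h2⟩

include hC hH

lemma Mobile.pull {z : C.A X} (h : Mobile H z) {f : V ⟶ X} (hf : Dom C f) :
    Mobile H (C.pull f z) := by
  obtain ⟨P, h1, h2⟩ := h
  refine ⟨fun V v => ∃ (X : 𝒱.Obj) (f : V ⟶ X) (z : C.A X), Dom C f ∧ P X z ∧ v = C.pull f z,
    ⟨X, f, z, hf, h1, rfl⟩, ?_⟩
  rintro V v ⟨X, f, z, hf, hz, rfl⟩
  obtain ⟨h3, T, t, hT, ht, htt, h4⟩ := h2 X z hz
  refine ⟨fun h => h3 (hf.injective (by rw [h, map_zero])), T, t, hT, ht, htt, X.prod T,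
    prodMap f (𝟙 T), C.ext z t, hf.prodMap T, h4, ?_⟩
  rw [pull_ext C, C.pull_id]

lemma null_deg (hT : T.dim = 1) {t : C.A T} (ht : IsNull H t) : C.Deg 1 t := by
  have h := ht.1
  rw [hT] at h
  exact_mod_cast h

/-- Raising the codimension with zero-cycles on curves. -/
lemma raise (hN : IsAbelJacobiKernel H N) {j n : ℕ} {z : C.A X} (hz : z ∈ minFil H N n X j)
    (hzd : C.Deg j z) (h0 : Mobile H z) (s : ℕ) :
    ∃ (Y : 𝒱.Obj) (y : C.A Y), Y.dim = X.dim + s ∧ y ∈ minFil H N (n + s) Y (j + s) ∧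
      C.Deg ((j + s : ℕ) : ℤ) y ∧ y ∈ AP C s Y (j + s) ∧ Mobile H y ∧
      (1 ≤ s → C.ext y y = 0) := by
  induction s with
  | zero => exact ⟨X, z, rfl, hz, hzd, hzd, h0, fun h => absurd h (by omega)⟩
  | succ s ih =>
    obtain ⟨Y, y, hd, hy, hyd, hya, hy0, -⟩ := ih
    obtain ⟨T, t, hT, ht, htt, hne⟩ := hy0.next
    have ht1 := null_deg hT ht
    have htd : HasDegree C t 0 := hasDegree_zero_of_cl H ht.1 ht.2
    refine ⟨Y.prod T, C.ext y t, ?_, ext_raise hN hy ht1 ht.2, ?_, AP_ext hya hT ht1 htd, hne,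
      fun _ => sq_ext htt⟩
    · rw [dim_prod, hd, hT]
      ring
    · have h1 := C.mul_mem (C.pull_mem (fst Y T) hyd) (C.pull_mem (snd Y T) ht1)
      exact Q72.DP.gr_congr (by push_cast; ring) h1

/-- The families of classes `z × t_1 × ⋯ × t_k`. -/
lemma family (hN : IsAbelJacobiKernel H N) {j n s : ℕ} {z : C.A X}
    (hz : z ∈ minFil H N n X j) (hzd : C.Deg j z) (hza : z ∈ AP C s X j) (h0 : Mobile H z)
    (k : ℕ) : ∃ (V T : 𝒱.Obj) (Ts : List 𝒱.Obj) (q : V ⟶ prodOf T Ts) (c : C.A V)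
      (w₀ : C.A (prodOf T Ts)), Ts.length = k ∧ T.dim = 1 ∧ (∀ T' ∈ Ts, T'.dim = 1) ∧
      (prodOf T Ts).dim = k + 1 ∧
      V.dim = X.dim + (k + 1) ∧ C.Deg j c ∧ IsNullProduct H T Ts w₀ ∧
      Mobile H (c * C.pull q w₀) ∧ ∀ w, IsNullProduct H T Ts w →
        c * C.pull q w ∈ minFil H N (n + (k + 1)) V (j + (k + 1)) ∧
        c * C.pull q w ∈ AP C (s + (k + 1)) V (j + (k + 1)) := by
  induction k with
  | zero =>
    obtain ⟨T, t, hT, ht, htt, hne⟩ := h0.next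
    refine ⟨X.prod T, T, [], snd X T, C.pull (fst X T) z, t, rfl, hT, by simp, hT, ?_,
      C.pull_mem _ hzd, ht, hne, fun w hw => ?_⟩
    · rw [dim_prod, hT]
    · have hw1 := null_deg hT hw
      exact ⟨ext_raise hN hz hw1 hw.2,
        AP_ext hza hT hw1 (hasDegree_zero_of_cl H hw.1 hw.2)⟩
  | succ k ih =>
    obtain ⟨V, T, Ts, q, c, w₀, hl, hT, hTs, hWd, hVd, hc, hw₀, hmob, hall⟩ := ih
    obtain ⟨T', t, hT', ht, htt, hne⟩ := hmob.next
    have key : ∀ (w : C.A (prodOf T Ts)) (t : C.A T'),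
        C.pull (fst V T') c * C.pull (prodMap q (𝟙 T')) (C.ext w t) =
          C.ext (c * C.pull q w) t := by
      intro w t
      rw [pull_ext C, C.pull_id]
      simp only [TheoryData.ext, map_mul, mul_assoc]
    refine ⟨V.prod T', T, T' :: Ts, prodMap q (𝟙 T'), C.pull (fst V T') c, C.ext w₀ t, ?_, hT,
      ?_, ?_, ?_, C.pull_mem _ hc, ⟨w₀, t, hw₀, ht, rfl⟩, ?_, ?_⟩
    · simp [hl]
    · intro T'' hT''
      rcases List.mem_cons.1 hT'' with rfl | h
      · exact hT'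
      · exact hTs _ h
    · change ((prodOf T Ts).prod T').dim = _
      rw [dim_prod, hWd, hT']
    · rw [dim_prod, hVd, hT']
      ring
    · exact (congrArg (Mobile H) (key w₀ t)).mpr hne
    · rintro _ ⟨w, t', hw, ht', rfl⟩
      obtain ⟨h1, h2⟩ := hall w hw
      have ht1 := null_deg hT' ht'
      have h7 : C.ext (c * C.pull q w) t' ∈ minFil H N (n + (k + 1 + 1)) (V.prod T')
          (j + (k + 1 + 1)) ∧ C.ext (c * C.pull q w) t' ∈ AP C (s + (k + 1 + 1)) (V.prod T')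
          (j + (k + 1 + 1)) :=
        ⟨ext_raise hN h1 ht1 ht'.2, AP_ext h2 hT' ht1 (hasDegree_zero_of_cl H ht'.1 ht'.2)⟩
      rw [← key] at h7
      exact h7

/-- **Main theorem.** -/
theorem main (hN : IsAbelJacobiKernel H N) {Cov : 𝒱.Obj → Prop} (hCov : HasCoverings C Cov)
    {n : ℕ} (hn : 1 ≤ n) :
    [NoMobileClass H N,
      InfinitelyPairs Cov fun m s V => ∀ z : C.A V, Obstruction H N m s z → C.ext z z = 0 →
        ¬ Mobile H z,
      InfinitelyPairs Cov fun m s V => NoFamily H N n m s V].TFAE := by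
  have obs : ∀ {m s : ℕ} {V : 𝒱.Obj} {z : C.A V}, 1 ≤ s → z ∈ minFil H N (m + 1) V m →
      z ∈ AP C s V m → Obstruction H N m s z := by
    intro m s V z hs h1 h2
    obtain ⟨s, rfl⟩ := Nat.exists_eq_add_of_le' hs
    refine ⟨?_, h2⟩
    change z ∈ step H N (m + 1) V m
    rw [step_eq]
    exact h1
  have exi : ¬ NoMobileClass H N → ∃ (X : 𝒱.Obj) (j : ℕ) (z : C.A X),
      z ∈ minFil H N (j + 1) X j ∧ C.Deg j z ∧ Mobile H z := by
    intro h
    unfold NoMobileClass at h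
    push Not at h
    obtain ⟨X, j, z, hz, hm⟩ := h
    have hz' : z ∈ minFil H N (j + 1) X j := by
      rw [← step_eq]
      exact hz
    refine ⟨X, j, z, hz', ((step_isAJKernel hN j).deg X j z ?_).1, hm⟩
    exact hz
  tfae_have 1 → 2 := by
    intro h n
    exact ⟨n + 1, 1, le_rfl, le_rfl, fun V _ _ z hz _ => h V _ z hz.1⟩
  tfae_have 1 → 3 := by
    intro h n
    exact ⟨n + 1, 1, le_rfl, le_rfl, fun V _ _ T Ts Γ _ _ _ _ h1 w hw => h V _ _ (h1 w hw).1⟩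
  tfae_have 2 → 1 := by
    intro h
    by_contra hne
    obtain ⟨X, j, z, hz, hzd, hz0⟩ := exi hne
    obtain ⟨m, s, hs, hm, h1⟩ := h (X.dim + j)
    obtain ⟨Y, y, hYd, hy, -, hya, hy0, hyy⟩ := raise hN hz hzd hz0 (m - j)
    have e1 : j + 1 + (m - j) = m + 1 := by omega
    have e2 : j + (m - j) = m := by omega
    rw [e1, e2] at hy
    rw [e2] at hya
    obtain ⟨T, -, hT, -⟩ := hy0.next
    obtain ⟨V, f, hV, hVd, hf⟩ := exists_cover' hT hCov Y (m := m) (by omega)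
    have h2 : Obstruction H N m s (C.pull f y) :=
      obs hs (pull_mem_minFil hN f hy) (AP_pull f (AP_anti' (by omega) Y m hya))
    exact h1 V hV hVd _ h2 (sq_pull f (hyy (by omega))) (hy0.pull hf)
  tfae_have 3 → 1 := by
    intro h
    by_contra hne
    obtain ⟨X, j, z, hz, hzd, hz0⟩ := exi hne
    obtain ⟨m, s, hs, hm, h1⟩ := h (X.dim + j + n)
    obtain ⟨Y, y, hYd, hy, hyd, hya, hy0, -⟩ := raise hN hz hzd hz0 (m - j - n)
    obtain ⟨k, rfl⟩ := Nat.exists_eq_add_of_le' hn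
    have e1 : j + 1 + (m - j - (k + 1)) = m - k := by omega
    have e2 : j + (m - j - (k + 1)) = m - (k + 1) := by omega
    rw [e1, e2] at hy
    rw [e2] at hya hyd
    obtain ⟨P, T, Ts, q, c, w₀, hl, hT, hTs, hWd, hPd, hc, hw₀, hmob, hall⟩ :=
      family hN hy hyd hya hy0 k
    obtain ⟨V, f, hV, hVd, hf⟩ := exists_cover' hT hCov P (m := m) (by omega)
    set Γ : C.A ((prodOf T Ts).prod V) :=
      C.comp (C.comp (C.cograph q) (C.mulCorr c)) (C.cograph f) with hΓ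
    have hact : ∀ w, C.act Γ w = C.pull f (c * C.pull q w) := by
      intro w
      rw [hΓ, C.act_comp, C.act_comp, C.act_cograph, C.act_cograph, C.act_mulCorr]
    have hdeg : C.Deg (m : ℤ) Γ := by
      have h2 : C.Deg (((prodOf T Ts).dim : ℕ) : ℤ) (C.cograph q) := cograph_mem _
      have h3 : C.Deg ((P.dim : ℕ) : ℤ) (C.cograph f) := cograph_mem _
      have h4 := mulCorr_mem hc
      refine comp_mem_deg (comp_mem_deg h2 h4 (c := (prodOf T Ts).dim + ((m - (k + 1) : ℕ) : ℤ))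
        (by ring)) h3 ?_
      rw [hWd]
      have : ((m - (k + 1) : ℕ) : ℤ) = m - (k + 1) := by omega
      rw [this]
      push_cast
      ring
    have e3 : m - k + (k + 1) = m + 1 := by omega
    have e4 : m - (k + 1) + (k + 1) = m := by omega
    refine h1 V hV hVd T Ts Γ (by rw [hl]) hT hTs hdeg (fun w hw => ?_) w₀ hw₀ ?_
    · rw [hact]
      obtain ⟨h5, h6⟩ := hall w hw
      rw [e3, e4] at h5
      rw [e4] at h6
      exact obs hs (pull_mem_minFil hN f h5)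
        (AP_pull f (AP_anti' (by omega) P m h6))
    · rw [hact]
      exact hmob.pull hf
  tfae_finish

/-- If a Bloch-Beilinson filtration exists, then the last steps vanish. -/
theorem vanish_of_bb (h : ∃ F, IsBB H N F) (X : 𝒱.Obj) (j : ℕ) (z : C.A X)
    (hz : In (step H N (j + 1)) j z) : z = 0 := by
  rw [exists_isBB_iff] at h
  obtain ⟨F, hF⟩ := h
  have hz' : z ∈ minFil H N (j + 1) X j := by
    rw [← step_eq]
    exact hz
  have h1 := minFil_le hF (j + 1) X j hz'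
  rw [hF.top X trivial j] at h1
  exact (Submodule.mem_bot ℚ).1 h1

theorem bb_of_vanish (hN : IsAbelJacobiKernel H N)
    (h : ∀ (X : 𝒱.Obj) (j : ℕ) (z : C.A X), In (step H N (j + 1)) j z → z = 0) :
    ∃ F, IsBB H N F := by
  rw [exists_isBB_iff]
  refine ⟨_, minFil_isBB hN fun X j => ?_⟩
  rw [eq_bot_iff]
  intro z hz
  rw [Submodule.mem_bot]
  apply h X j z
  change z ∈ step H N (j + 1) X j
  rw [step_eq]
  exact hz

end weil

end Pool.Agent.H92.BBM
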